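import Mathlib
import Pool.Agent.Y336.RW.Stm

/-!
PROJECT RW, job RW-SOL: solutions of the polynomial system and points.
-/

set_option autoImplicit false

namespace Pool.Agent.Y170.RW

open Pool.Agent.Y336.RW

section norm

variable (p : ℕ) [hp : Fact p.Prime]

theorem nle_mul {a b : ℚ} (ha : padicNorm p a ≤ 1) (hb : padicNorm p b ≤ 1) :
    padicNorm p (a * b) ≤ 1 := by
  rw [padicNorm.mul]
  exact mul_le_one₀ ha (padicNorm.nonneg _) hb

theorem nle_pow {a : ℚ} (ha : padicNorm p a ≤ 1) (n : ℕ) : padicNorm p (a ^ n) ≤ 1 := by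
  induction n with
  | zero => simp
  | succ n ih => rw [pow_succ]; exact nle_mul p ih ha

theorem nle_add {a b : ℚ} (ha : padicNorm p a ≤ 1) (hb : padicNorm p b ≤ 1) :
    padicNorm p (a + b) ≤ 1 := (padicNorm.nonarchimedean).trans (max_le ha hb)

theorem nle_sub {a b : ℚ} (ha : padicNorm p a ≤ 1) (hb : padicNorm p b ≤ 1) :
    padicNorm p (a - b) ≤ 1 := by
  rw [sub_eq_add_neg]
  exact nle_add p ha (by rw [padicNorm.neg]; exact hb)

theorem nlt_mul {a b : ℚ} (ha : padicNorm p a < 1) (hb : padicNorm p b ≤ 1) :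
    padicNorm p (a * b) < 1 := by
  rw [padicNorm.mul]
  calc padicNorm p a * padicNorm p b ≤ padicNorm p a * 1 :=
        mul_le_mul_of_nonneg_left hb (padicNorm.nonneg _)
    _ < 1 := by rw [mul_one]; exact ha

theorem nlt_add {a b : ℚ} (ha : padicNorm p a < 1) (hb : padicNorm p b < 1) :
    padicNorm p (a + b) < 1 := (padicNorm.nonarchimedean).trans_lt (max_lt ha hb)

theorem neq_add {a b : ℚ} (ha : padicNorm p a = 1) (hb : padicNorm p b < 1) :
    padicNorm p (a + b) = 1 := by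
  rw [padicNorm.add_eq_max_of_ne (by rw [ha]; exact hb.ne'), ha]
  exact max_eq_left hb.le

theorem norm_sq (a : ℚ) : padicNorm p (a ^ 2) = padicNorm p a ^ 2 := by
  rw [pow_two, padicNorm.mul, pow_two]

theorem norm_pow (a : ℚ) (n : ℕ) : padicNorm p (a ^ n) = padicNorm p a ^ n := by
  induction n with
  | zero => simp
  | succ n ih => rw [pow_succ, padicNorm.mul, ih, pow_succ]

end norm

theorem pt_part (g : Grp) (G : Set ℕ) (hG : ∀ p ∈ G, p.Prime) (h : Sol G) :
    ∃ R : E, InC R ∧ ∀ p ∈ G, ¬ K2 p R ∧ ¬ K3 p R := by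
  obtain ⟨U, V, W, T, a, b, z, hN, h1, h2, h3, h4⟩ := h
  have hT : T ≠ 0 := by
    intro hT
    rw [hT] at h1 h2 h3
    have hU2 : U ^ 2 = 0 := by nlinarith [sq_nonneg U, sq_nonneg W]
    have hU : U = 0 := pow_eq_zero_iff (two_ne_zero) |>.mp hU2
    rw [hU] at h3
    norm_num at h3
  have hx5 : -(U / T) ^ 2 - 5 = -(V / T) ^ 2 := by
    rw [div_pow, div_pow, ← h1]
    field_simp
    ring
  have hx5' : -(U / T) ^ 2 + 5 = (W / T) ^ 2 := by
    rw [div_pow, div_pow, ← h2]
    field_simp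
    ring
  obtain ⟨R, hR, hx, hy⟩ := g.ex (-(U / T) ^ 2) (U / T * (V / T) * (W / T)) (by
    have : (-(U / T) ^ 2) ^ 3 - 25 * -(U / T) ^ 2 =
      (-(U / T) ^ 2) * (-(U / T) ^ 2 - 5) * (-(U / T) ^ 2 + 5) := by ring
    rw [this, hx5, hx5']
    ring)
  refine ⟨R, ⟨hR, U / T, V / T, W / T, hx, by rw [hx]; exact hx5, by rw [hx]; exact hx5'⟩,
    fun p hpG => ?_⟩
  have : Fact p.Prime := ⟨hG p hpG⟩
  obtain ⟨nU, nV, nW, nT, na, nb, nz⟩ := hN p hpG
  have hTpos : 0 < padicNorm p T :=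
    lt_of_le_of_ne (padicNorm.nonneg _) (Ne.symm (padicNorm.nonzero hT))
  have nF : padicNorm p (3 * U ^ 8 - 150 * U ^ 4 * T ^ 4 - 625 * T ^ 8) ≤ 1 := by
    have i3 : padicNorm p (3 : ℚ) ≤ 1 := by exact_mod_cast padicNorm.of_nat (p := p) 3
    have i150 : padicNorm p (150 : ℚ) ≤ 1 := by exact_mod_cast padicNorm.of_nat (p := p) 150
    have i625 : padicNorm p (625 : ℚ) ≤ 1 := by exact_mod_cast padicNorm.of_nat (p := p) 625
    exact nle_sub p (nle_sub p (nle_mul p i3 (nle_pow p nU 8))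
      (nle_mul p (nle_mul p i150 (nle_pow p nU 4)) (nle_pow p nT 4)))
      (nle_mul p i625 (nle_pow p nT 8))
  have hone : padicNorm p V * padicNorm p (3 * U ^ 8 - 150 * U ^ 4 * T ^ 4 - 625 * T ^ 8) *
      padicNorm p z = 1 := by
    rw [← padicNorm.mul, ← padicNorm.mul, h4, padicNorm.one]
  constructor
  · rintro ⟨_, hlt⟩
    rw [hx, hx5, padicNorm.neg, norm_sq, padicNorm.div, div_pow, div_lt_one (by positivity)] at hlt
    have hV1 : padicNorm p V < 1 := by
      have h5 : padicNorm p V < padicNorm p T :=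
        lt_of_pow_lt_pow_left₀ 2 hTpos.le hlt
      exact h5.trans_le nT
    have : padicNorm p (V * (3 * U ^ 8 - 150 * U ^ 4 * T ^ 4 - 625 * T ^ 8) * z) < 1 :=
      nlt_mul p (nlt_mul p hV1 nF) nz
    rw [h4, padicNorm.one] at this
    exact lt_irrefl _ this
  · rintro ⟨_, hle, hlt⟩
    rw [hx, padicNorm.neg, norm_sq, padicNorm.div, div_pow, div_le_one (by positivity)] at hle
    have hUT : padicNorm p U ≤ padicNorm p T :=
      (pow_le_pow_iff_left₀ (padicNorm.nonneg _) hTpos.le two_ne_zero).mp hle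
    have hT1 : padicNorm p T = 1 := by
      refine le_antisymm nT ?_
      have h5 : (1 : ℚ) = padicNorm p (a * U + b * T) := by rw [h3, padicNorm.one]
      rw [h5]
      refine (padicNorm.nonarchimedean).trans (max_le ?_ ?_)
      · rw [padicNorm.mul]
        calc padicNorm p a * padicNorm p U ≤ 1 * padicNorm p U :=
              mul_le_mul_of_nonneg_right na (padicNorm.nonneg _)
          _ ≤ padicNorm p T := by rw [one_mul]; exact hUT
      · rw [padicNorm.mul]
        calc padicNorm p b * padicNorm p T ≤ 1 * padicNorm p T :=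
              mul_le_mul_of_nonneg_right nb (padicNorm.nonneg _)
          _ ≤ padicNorm p T := by rw [one_mul]
    have hF : 3 * U ^ 8 - 150 * U ^ 4 * T ^ 4 - 625 * T ^ 8 =
        T ^ 8 * (3 * xc R ^ 4 - 150 * xc R ^ 2 - 625) := by
      rw [hx]
      field_simp
    have hF1 : padicNorm p (3 * U ^ 8 - 150 * U ^ 4 * T ^ 4 - 625 * T ^ 8) < 1 := by
      rw [hF, padicNorm.mul, norm_pow, hT1, one_pow, one_mul]
      exact hlt
    have : padicNorm p ((3 * U ^ 8 - 150 * U ^ 4 * T ^ 4 - 625 * T ^ 8) * (V * z)) < 1 :=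
      nlt_mul p hF1 (nle_mul p nV nz)
    rw [show (3 * U ^ 8 - 150 * U ^ 4 * T ^ 4 - 625 * T ^ 8) * (V * z) =
      V * (3 * U ^ 8 - 150 * U ^ 4 * T ^ 4 - 625 * T ^ 8) * z by ring, h4, padicNorm.one] at this
    exact lt_irrefl _ this

theorem sol_part (R : E) (hR : InC R) (G : Set ℕ)
    (hG : ∀ p ∈ G, p.Prime ∧ 7 ≤ p ∧ Ker p R) : Sol G := by
  obtain ⟨hR0, u, v, w, hu, hv, hw⟩ := hR
  set U : ℚ := (u.num : ℚ) with hU
  set T : ℚ := (u.den : ℚ) with hT
  have hTpos : 0 < T := by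
    rw [hT]
    exact_mod_cast u.den_pos
  have huT : u * T = U := by
    rw [hU, hT]
    exact Rat.mul_den_eq_num u
  have hV2 : U ^ 2 + 5 * T ^ 2 = (v * T) ^ 2 := by
    rw [← huT]
    have : v ^ 2 = u ^ 2 + 5 := by rw [hu] at hv; linarith
    rw [mul_pow, mul_pow, this]
    ring
  have hW2 : 5 * T ^ 2 - U ^ 2 = (w * T) ^ 2 := by
    rw [← huT]
    have : w ^ 2 = 5 - u ^ 2 := by rw [hu] at hw; linarith
    rw [mul_pow, mul_pow, this]
    ring
  -- Bezout
  obtain ⟨a, b, hab⟩ : ∃ a b : ℤ, (a : ℚ) * U + (b : ℚ) * T = 1 := by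
    have hc : IsCoprime u.num (u.den : ℤ) := by
      rw [Int.isCoprime_iff_gcd_eq_one, Int.gcd_eq_natAbs, Int.natAbs_natCast]
      exact u.reduced
    obtain ⟨a, b, h⟩ := hc
    refine ⟨a, b, ?_⟩
    rw [hU, hT]
    exact_mod_cast h
  set V : ℚ := v * T with hV
  set W : ℚ := w * T with hW
  set F : ℚ := 3 * U ^ 8 - 150 * U ^ 4 * T ^ 4 - 625 * T ^ 8 with hF
  have hT2 : 0 < T ^ 2 := by positivity
  have hV0 : V ≠ 0 := by
    intro h
    rw [h] at hV2
    nlinarith [sq_nonneg U]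
  have hF0 : F ≠ 0 := by
    have h1 : U ^ 2 ≤ 5 * T ^ 2 := by nlinarith [sq_nonneg W]
    have h2 : U ^ 4 ≤ 25 * T ^ 4 := by
      have := mul_self_le_mul_self (sq_nonneg U) h1
      nlinarith
    have h3 : U ^ 8 ≤ 25 * (U ^ 4 * T ^ 4) := by
      have h4 : 0 ≤ U ^ 4 := by positivity
      have := mul_le_mul_of_nonneg_left h2 h4
      nlinarith
    have h5 : 0 < T ^ 8 := by positivity
    have h6 : 0 ≤ U ^ 4 * T ^ 4 := by positivity
    have : F < 0 := by rw [hF]; nlinarith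
    exact this.ne
  refine ⟨U, V, W, T, a, b, (V * F)⁻¹, fun p hpG => ?_, hV2, hW2, hab, ?_⟩
  · obtain ⟨hp, h7, hK⟩ := hG p hpG
    have : Fact p.Prime := ⟨hp⟩
    have nU : padicNorm p U ≤ 1 := padicNorm.of_int _
    have nT : padicNorm p T ≤ 1 := padicNorm.of_nat _
    have n5 : padicNorm p (5 : ℚ) ≤ 1 := by exact_mod_cast padicNorm.of_nat (p := p) 5
    have n150 : padicNorm p (150 : ℚ) ≤ 1 := by exact_mod_cast padicNorm.of_nat (p := p) 150
    have n625 : padicNorm p (625 : ℚ) ≤ 1 := by exact_mod_cast padicNorm.of_nat (p := p) 625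
    have na : padicNorm p (a : ℚ) ≤ 1 := padicNorm.of_int _
    have nb : padicNorm p (b : ℚ) ≤ 1 := padicNorm.of_int _
    have hTn : 0 < padicNorm p T :=
      lt_of_le_of_ne (padicNorm.nonneg _) (Ne.symm (padicNorm.nonzero hTpos.ne'))
    -- `p` divides `T`
    have hlt := hK.resolve_left hR0
    have hT1 : padicNorm p T < 1 := by
      have h1 : xc R * T ^ 2 = -U ^ 2 := by rw [hu, ← huT]; ring
      have h2 : padicNorm p (xc R) * padicNorm p T ^ 2 = padicNorm p U ^ 2 := by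
        rw [← norm_sq, ← padicNorm.mul, h1, padicNorm.neg, norm_sq]
      by_contra hcon
      push Not at hcon
      have h3 : (1 : ℚ) ≤ padicNorm p T ^ 2 := one_le_pow₀ hcon
      have h4 : padicNorm p U ^ 2 ≤ 1 := pow_le_one₀ (padicNorm.nonneg _) nU
      nlinarith
    have hU1 : padicNorm p U = 1 := by
      refine le_antisymm nU ?_
      by_contra hcon
      push Not at hcon
      have h1 : padicNorm p ((a : ℚ) * U + (b : ℚ) * T) < 1 := by
        refine nlt_add p ?_ ?_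
        · rw [mul_comm]; exact nlt_mul p hcon na
        · rw [mul_comm]; exact nlt_mul p hT1 nb
      rw [hab, padicNorm.one] at h1
      exact lt_irrefl _ h1
    have hT2lt : padicNorm p (5 * T ^ 2) < 1 := by
      rw [mul_comm, pow_two]
      exact nlt_mul p (nlt_mul p hT1 nT) n5
    have hVsq : padicNorm p V ^ 2 = 1 := by
      rw [← norm_sq, ← hV2]
      exact neq_add p (by rw [norm_sq, hU1, one_pow]) hT2lt
    have hV1 : padicNorm p V = 1 := by
      have := padicNorm.nonneg (p := p) V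
      nlinarith
    have hWsq : padicNorm p W ^ 2 = 1 := by
      rw [← norm_sq, ← hW2, sub_eq_add_neg, add_comm]
      exact neq_add p (by rw [padicNorm.neg, norm_sq, hU1, one_pow]) hT2lt
    have hW1 : padicNorm p W = 1 := by
      have := padicNorm.nonneg (p := p) W
      nlinarith
    have n3 : padicNorm p (3 : ℚ) = 1 := by
      have h3 : ¬ (p : ℤ) ∣ (3 : ℤ) := by
        intro h
        have := Int.le_of_dvd (by norm_num) h
        omega
      exact_mod_cast (padicNorm.int_eq_one_iff (p := p) 3).mpr h3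
    have hF1 : padicNorm p F = 1 := by
      have e : F = 3 * U ^ 8 + T * (-(150 * U ^ 4 * T ^ 3) - 625 * T ^ 7) := by rw [hF]; ring
      rw [e]
      refine neq_add p ?_ ?_
      · rw [padicNorm.mul, n3, norm_pow, hU1, one_pow, one_mul]
      · refine nlt_mul p hT1 (nle_sub p ?_ (nle_mul p n625 (nle_pow p nT 7)))
        rw [padicNorm.neg]
        exact nle_mul p (nle_mul p n150 (nle_pow p nU 4)) (nle_pow p nT 3)
    have hz : padicNorm p (V * F)⁻¹ = 1 := by
      have h1 : padicNorm p (V * F) * padicNorm p (V * F)⁻¹ = 1 := by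
        rw [← padicNorm.mul, mul_inv_cancel₀ (mul_ne_zero hV0 hF0), padicNorm.one]
      rw [padicNorm.mul, hV1, hF1, one_mul, one_mul] at h1
      exact h1
    exact ⟨nU, hV1.le, hW1.le, nT, na, nb, hz.le⟩
  · rw [← hF]
    exact mul_inv_cancel₀ (mul_ne_zero hV0 hF0)

theorem solpt (g : Grp) : SolPt :=
  ⟨fun G hG h => pt_part g G hG h, fun R hR G _ hG => sol_part R hR G hG⟩

end Pool.Agent.Y170.RW
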